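import Pool.Agent.Results.MP_de7343_al.Dense

/-!
# Almost all one-relator pro-p groups have cohomological dimension at most two
-/

set_option autoImplicit false
set_option linter.unusedSectionVars false

open Topology MeasureTheory

namespace Pool.Agent.Y574.DN

open Pool.Agent.Results.MP_de7343_al.Dense

section Main

variable {p : ℕ} [hp : Fact p.Prime]
variable {X F : Type} [Group F] [TopologicalSpace F] [IsTopologicalGroup F] [CompactSpace F]
  [T2Space F] [TotallyDisconnectedSpace F] {ι : X → F}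

/-- translation of locally constant functions -/
noncomputable def tr (u : ℤ_[p]) :
    LocallyConstant ℤ_[p] (ZMod p) →+ LocallyConstant ℤ_[p] (ZMod p) where
  toFun f := ⟨fun z => f (z + u), f.isLocallyConstant.comp_continuous
    (continuous_id.add continuous_const)⟩
  map_zero' := rfl
  map_add' _ _ := rfl

theorem tr_apply (u : ℤ_[p]) (f : LocallyConstant ℤ_[p] (ZMod p)) (z : ℤ_[p]) :
    tr u f z = f (z + u) := rfl

theorem coind_apply (χ : F →* Multiplicative ℤ_[p])
    (hc : Continuous (fun g => Multiplicative.toAdd (χ g))) (g : F)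
    (f : LocallyConstant ℤ_[p] (ZMod p)) (z : ℤ_[p]) :
    (coind (zAct χ hc) (1 : F →* AddMonoid.End (ZMod p))) g f z =
      f (z + Multiplicative.toAdd (χ g⁻¹)) := rfl

/-- the values of a derivation are periodic -/
theorem der_periodic (h : IsFreeProP p ι) (χ : F →* Multiplicative ℤ_[p])
    (hc : Continuous (fun g => Multiplicative.toAdd (χ g))) (s : X)
    {δ : F → LocallyConstant ℤ_[p] (ZMod p)}
    (hδ : IsDer (coind (zAct χ hc) (1 : F →* AddMonoid.End (ZMod p))) δ)
    (hδs : ∀ x, x ≠ s → δ (ι x) = 0) {m : ℕ}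
    (hm : ∀ z w : ℤ_[p], δ (ι s) (z + (p : ℤ_[p]) ^ m * w) = δ (ι s) z) (g : F)
    (z w : ℤ_[p]) : δ g (z + (p : ℤ_[p]) ^ m * w) = δ g z := by
  have h0 : IsDer (coind (zAct χ hc) (1 : F →* AddMonoid.End (ZMod p)))
      (fun g => tr ((p : ℤ_[p]) ^ m * w) (δ g)) := by
    refine hδ.map _ ?_
    intro g d
    ext z
    rw [tr_apply, coind_apply, coind_apply, tr_apply]
    congr 1
    ring
  have h1 : (fun g => tr ((p : ℤ_[p]) ^ m * w) (δ g)) = δ := by
    apply h.der_unique hp.out h0 hδ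
    intro x
    by_cases hx : x = s
    · subst hx
      ext z
      exact hm z w
    · rw [hδs x hx, map_zero]
  have h2 := congrFun h1 g
  exact congrArg (fun f : LocallyConstant ℤ_[p] (ZMod p) => f z) h2

/-- changing the character modulo `p ^ m` -/
theorem der_change (χ χ' : F →* Multiplicative ℤ_[p])
    (hc : Continuous (fun g => Multiplicative.toAdd (χ g)))
    (hc' : Continuous (fun g => Multiplicative.toAdd (χ' g)))
    {δ : F → LocallyConstant ℤ_[p] (ZMod p)}
    (hδ : IsDer (coind (zAct χ hc) (1 : F →* AddMonoid.End (ZMod p))) δ) {m : ℕ}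
    (hper : ∀ (g : F) (z w : ℤ_[p]), δ g (z + (p : ℤ_[p]) ^ m * w) = δ g z)
    (hχ : ∀ g, ∃ w : ℤ_[p], Multiplicative.toAdd (χ' g) =
      Multiplicative.toAdd (χ g) + (p : ℤ_[p]) ^ m * w) :
    IsDer (coind (zAct χ' hc') (1 : F →* AddMonoid.End (ZMod p))) δ := by
  refine ⟨hδ.1, fun g k => ?_⟩
  rw [hδ.2]
  congr 1
  ext z
  rw [coind_apply, coind_apply]
  obtain ⟨w, hw⟩ := hχ g⁻¹
  rw [hw, ← add_assoc, hper]

/-- divisibility in the `p`-adic integers -/
theorem dvd_of_norm {d y : ℤ_[p]} (hy : y ≠ 0) (h : ‖d‖ ≤ ‖y‖) : ∃ w : ℤ_[p], d = y * w := by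
  have hy' : (y : ℚ_[p]) ≠ 0 := by
    intro h0
    exact hy (Subtype.ext h0)
  have hn : ‖(d : ℚ_[p]) / (y : ℚ_[p])‖ ≤ 1 := by
    rw [norm_div]
    apply div_le_one_of_le₀ _ (norm_nonneg _)
    exact h
  refine ⟨⟨(d : ℚ_[p]) / (y : ℚ_[p]), hn⟩, ?_⟩
  apply Subtype.ext
  change (d : ℚ_[p]) = (y : ℚ_[p]) * ((d : ℚ_[p]) / (y : ℚ_[p]))
  field_simp

/-- the combination of two characters -/
noncomputable def comb (χs χt : F →* Multiplicative ℤ_[p]) (c : ℤ_[p]) :
    F →* Multiplicative ℤ_[p] where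
  toFun g := Multiplicative.ofAdd
    (Multiplicative.toAdd (χt g) - Multiplicative.toAdd (χs g) * c)
  map_one' := by
    apply Multiplicative.toAdd.injective
    simp
  map_mul' := by
    intro a b
    apply Multiplicative.toAdd.injective
    simp only [map_mul, toAdd_mul, toAdd_ofAdd]
    ring

theorem comb_apply (χs χt : F →* Multiplicative ℤ_[p]) (c : ℤ_[p]) (g : F) :
    Multiplicative.toAdd (comb χs χt c g) =
      Multiplicative.toAdd (χt g) - Multiplicative.toAdd (χs g) * c := rfl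

theorem comb_cont {χs χt : F →* Multiplicative ℤ_[p]}
    (hcs : Continuous (fun g => Multiplicative.toAdd (χs g)))
    (hct : Continuous (fun g => Multiplicative.toAdd (χt g))) (c : ℤ_[p]) :
    Continuous (fun g => Multiplicative.toAdd (comb χs χt c g)) := by
  simp only [comb_apply]
  exact hct.sub (hcs.mul continuous_const)

/-- the criterion for a pair of coordinates -/
def Good (ι : X → F) (s : X) (χs χt : F →* Multiplicative ℤ_[p])
    (hcs : Continuous (fun g => Multiplicative.toAdd (χs g)))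
    (hct : Continuous (fun g => Multiplicative.toAdd (χt g))) : Set F :=
  {r | Multiplicative.toAdd (χs r) ≠ 0 ∧ ∃ c : ℤ_[p],
    Multiplicative.toAdd (χt r) = Multiplicative.toAdd (χs r) * c ∧
      ∃ δ : F → LocallyConstant ℤ_[p] (ZMod p),
        IsDer (coind (zAct (comb χs χt c) (comb_cont hcs hct c))
          (1 : F →* AddMonoid.End (ZMod p))) δ ∧ (∀ x, x ≠ s → δ (ι x) = 0) ∧ δ r ≠ 0}

theorem good_cd (h : IsFreeProP p ι) (s : X) {χs χt : F →* Multiplicative ℤ_[p]}
    (hcs : Continuous (fun g => Multiplicative.toAdd (χs g)))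
    (hct : Continuous (fun g => Multiplicative.toAdd (χt g))) {r : F}
    (hr : r ∈ Good ι s χs χt hcs hct) : cd p (F ⧸ clNormal r) ≤ 2 := by
  obtain ⟨-, c, hc, hδ⟩ := hr
  have hχ : comb χs χt c r = 1 := by
    apply Multiplicative.toAdd.injective
    rw [comb_apply, hc, sub_self, toAdd_one]
  exact cd_le_two h _ (comb_cont hcs hct c) r hχ (eval_base h _ _ r s hδ)

/-- the criterion is an open condition -/
theorem good_open (h : IsFreeProP p ι) (s : X) {χs χt : F →* Multiplicative ℤ_[p]}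
    (hcs : Continuous (fun g => Multiplicative.toAdd (χs g)))
    (hct : Continuous (fun g => Multiplicative.toAdd (χt g))) :
    IsOpen (Good ι s χs χt hcs hct) := by
  rw [isOpen_iff_mem_nhds]
  rintro r ⟨hr0, c, hr, δ, hδ, hδs, hδr⟩
  obtain ⟨m, hm⟩ := periodic (δ (ι s))
  have hper := der_periodic h _ _ s hδ hδs hm
  have hpm : (p : ℤ_[p]) ^ m ≠ 0 := pow_ne_zero _ (by exact_mod_cast hp.out.ne_zero)
  have hd : Continuous (fun g => Multiplicative.toAdd (χt g) - Multiplicative.toAdd (χs g) * c) :=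
    hct.sub (hcs.mul continuous_const)
  have hopen : IsOpen {g : F | ‖Multiplicative.toAdd (χt g) -
      Multiplicative.toAdd (χs g) * c‖ < ‖(p : ℤ_[p]) ^ m‖ * ‖Multiplicative.toAdd (χs g)‖} :=
    isOpen_lt hd.norm (continuous_const.mul hcs.norm)
  have hmem : r ∈ {g : F | ‖Multiplicative.toAdd (χt g) -
      Multiplicative.toAdd (χs g) * c‖ < ‖(p : ℤ_[p]) ^ m‖ * ‖Multiplicative.toAdd (χs g)‖} := by
    change ‖_‖ < _
    rw [hr, sub_self, norm_zero]
    exact mul_pos (norm_pos_iff.2 hpm) (norm_pos_iff.2 hr0)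
  filter_upwards [hopen.mem_nhds hmem, hδ.1.eventually_eq r] with r' h1 h2
  change ‖_‖ < _ at h1
  have h3 : Multiplicative.toAdd (χs r') ≠ 0 := by
    intro h0
    rw [h0, norm_zero, mul_zero] at h1
    exact absurd h1 (not_lt.2 (norm_nonneg _))
  have hle : ‖Multiplicative.toAdd (χt r') - Multiplicative.toAdd (χs r') * c‖ ≤
      ‖(p : ℤ_[p]) ^ m * Multiplicative.toAdd (χs r')‖ := by
    rw [norm_mul]
    exact h1.le
  obtain ⟨w, hw⟩ := dvd_of_norm (mul_ne_zero hpm h3) hle
  refine ⟨h3, c + (p : ℤ_[p]) ^ m * w, by linear_combination hw, δ, ?_, hδs, ?_⟩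
  · refine der_change _ _ _ _ hδ hper fun g => ?_
    refine ⟨-(Multiplicative.toAdd (χs g) * w), ?_⟩
    rw [comb_apply, comb_apply]
    ring
  · rw [h2]
    exact hδr

/-- the commutators -/
def cm (x y : F) (k : ℕ) : F := x * y ^ p ^ k * x⁻¹ * (y ^ p ^ k)⁻¹

theorem cm_hom (x y : F) (k : ℕ) (φ : F →* Multiplicative ℤ_[p]) : φ (cm (p := p) x y k) = 1 := by
  simp only [cm, map_mul, map_inv]
  rw [mul_comm (φ x) (φ (y ^ p ^ k))]
  group

/-- a test function -/
noncomputable def tst (p : ℕ) [Fact p.Prime] (m : ℕ) : LocallyConstant ℤ_[p] (ZMod p) :=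
  ⟨fun z => if PadicInt.toZModPow m z = 0 then 1 else 0,
    (toZModPow_lc (p := p) m).comp (fun w => if w = 0 then 1 else 0)⟩

theorem tst_apply (m : ℕ) (z : ℤ_[p]) :
    tst p m z = if PadicInt.toZModPow m z = 0 then 1 else 0 := rfl

open scoped Classical in
/-- the values of a derivation at the commutators -/
theorem der_cm {χ : F →* Multiplicative ℤ_[p]}
    (hc : Continuous (fun g => Multiplicative.toAdd (χ g))) {s t : X} (hst : s ≠ t)
    (ht : χ (ι t) = Multiplicative.ofAdd 1) {c : LocallyConstant ℤ_[p] (ZMod p)}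
    {δ : F → LocallyConstant ℤ_[p] (ZMod p)}
    (hδ : IsDer (coind (zAct χ hc) (1 : F →* AddMonoid.End (ZMod p))) δ)
    (hδι : ∀ x, δ (ι x) = if x = s then c else 0) (k : ℕ) (z : ℤ_[p]) :
    δ (cm (p := p) (ι s) (ι t) k) z = c z - c (z - (p : ℤ_[p]) ^ k) := by
  set x := ι s with hx
  set y := ι t with hy
  have hδx : δ x = c := by
    have := hδι s
    rwa [if_pos rfl] at this
  have hδy : δ y = 0 := by
    have := hδι t
    rwa [if_neg hst.symm] at this
  have hδyk : ∀ k : ℕ, δ (y ^ k) = 0 := by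
    intro k
    induction k with
    | zero => rw [pow_zero]; exact hδ.one
    | succ k ih => rw [pow_succ, hδ.2, ih, hδy, map_zero, add_zero]
  have hδn : δ (cm (p := p) x y k) = c -
      (coind (zAct χ hc) (1 : F →* AddMonoid.End (ZMod p))) (x * y ^ p ^ k * x⁻¹) c := by
    have e1 : δ (x * y ^ p ^ k * x⁻¹) = c -
        (coind (zAct χ hc) (1 : F →* AddMonoid.End (ZMod p))) (x * y ^ p ^ k * x⁻¹) c := by
      rw [hδ.2, hδ.2, hδyk, map_zero, add_zero, hδx, hδ.inv, hδx, map_neg, ← rho_mul,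
        sub_eq_add_neg]
    unfold cm
    rw [hδ.2, e1, hδ.inv, hδyk, map_zero, neg_zero, map_zero, add_zero]
  have e2 : Multiplicative.toAdd (χ (x * y ^ p ^ k * x⁻¹)⁻¹) = -(p : ℤ_[p]) ^ k := by
    have : χ (x * y ^ p ^ k * x⁻¹) = Multiplicative.ofAdd ((p : ℤ_[p]) ^ k) := by
      rw [map_mul, map_mul, mul_comm (χ x), map_inv, mul_inv_cancel_right, map_pow, ht]
      apply Multiplicative.toAdd.injective
      simp
    rw [map_inv, this]
    rfl
  rw [hδn]
  change c z - (coind (zAct χ hc) (1 : F →* AddMonoid.End (ZMod p))) (x * y ^ p ^ k * x⁻¹) c z = _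
  rw [coind_apply, e2, ← sub_eq_add_neg]

section Measure

variable [MeasurableSpace F] [BorelSpace F] (μ : Measure F) [μ.IsHaarMeasure]

/-- a set with infinitely many disjoint translates is a null set -/
theorem null_of_translates {Z : Set F} (hZ : MeasurableSet Z) (n : ℕ → F)
    (hd : ∀ j k, j < k → ∀ r ∈ Z, ∀ r' ∈ Z, n j * r ≠ n k * r') : μ Z = 0 := by
  by_contra hne
  let T : ℕ → Set F := fun k => (fun r => (n k)⁻¹ * r) ⁻¹' Z
  have hT : ∀ k, MeasurableSet (T k) := fun k => measurable_const_mul (n k)⁻¹ hZ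
  have hTμ : ∀ k, μ (T k) = μ Z := fun k => measure_preimage_mul μ (n k)⁻¹ Z
  have hdis : Pairwise (Function.onFun Disjoint T) := by
    have key : ∀ j k, j < k → Disjoint (T j) (T k) := by
      intro j k hjk
      rw [Set.disjoint_left]
      intro x hx hx'
      refine hd j k hjk _ hx _ hx' ?_
      simp only
      rw [mul_inv_cancel_left, mul_inv_cancel_left]
    intro j k hjk
    rcases lt_or_gt_of_ne hjk with h | h
    · exact key j k h
    · exact (key k j h).symm
  have h1 := measure_iUnion (μ := μ) hdis hT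
  simp only [hTμ] at h1
  rw [ENNReal.tsum_const_eq_top_of_ne_zero hne] at h1
  exact (measure_lt_top μ _).ne h1

/-- the first coordinate is almost never zero -/
theorem null_coord {s : X} {χs : F →* Multiplicative ℤ_[p]}
    (hcs : Continuous (fun g => Multiplicative.toAdd (χs g)))
    (hs1 : χs (ι s) = Multiplicative.ofAdd 1) :
    μ {r | Multiplicative.toAdd (χs r) = 0} = 0 := by
  refine null_of_translates μ (isClosed_eq hcs continuous_const).measurableSet
    (fun k => ι s ^ k) ?_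
  intro j k hjk r hr r' hr' he
  have h1 := congrArg (fun g => Multiplicative.toAdd (χs g)) he
  simp only [map_mul, map_pow, toAdd_mul, toAdd_pow, hs1, toAdd_ofAdd] at h1
  change Multiplicative.toAdd (χs r) = 0 at hr
  change Multiplicative.toAdd (χs r') = 0 at hr'
  rw [hr, hr', add_zero, add_zero, nsmul_eq_mul, nsmul_eq_mul, mul_one, mul_one] at h1
  have h2 : j = k := by exact_mod_cast h1
  omega

/-- almost every element satisfies the criterion -/
theorem null_bad (h : IsFreeProP p ι) {s t : X} (hst : s ≠ t)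
    {χs χt : F →* Multiplicative ℤ_[p]}
    (hcs : Continuous (fun g => Multiplicative.toAdd (χs g)))
    (hct : Continuous (fun g => Multiplicative.toAdd (χt g)))
    (hs0 : ∀ x, x ≠ s → χs (ι x) = 1) (ht1 : χt (ι t) = Multiplicative.ofAdd 1) :
    μ ({r | Multiplicative.toAdd (χs r) ≠ 0 ∧
      ‖Multiplicative.toAdd (χt r)‖ ≤ ‖Multiplicative.toAdd (χs r)‖} \
        Good ι s χs χt hcs hct) = 0 := by
  classical
  have hm1 : MeasurableSet {r | Multiplicative.toAdd (χs r) ≠ 0} :=
    (isOpen_ne_fun hcs continuous_const).measurableSet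
  have hm2 : MeasurableSet {r | ‖Multiplicative.toAdd (χt r)‖ ≤ ‖Multiplicative.toAdd (χs r)‖} :=
    (isClosed_le hct.norm hcs.norm).measurableSet
  refine null_of_translates μ ((hm1.inter hm2).diff (good_open h s hcs hct).measurableSet)
    (fun k => cm (p := p) (ι s) (ι t) k) ?_
  rintro j k hjk r ⟨⟨hr0, hrn⟩, hr⟩ r' ⟨⟨hr0', -⟩, hr'⟩ he
  change Multiplicative.toAdd (χs r) ≠ 0 at hr0
  change Multiplicative.toAdd (χs r') ≠ 0 at hr0'
  change ‖Multiplicative.toAdd (χt r)‖ ≤ ‖Multiplicative.toAdd (χs r)‖ at hrn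
  obtain ⟨c, hc⟩ := dvd_of_norm hr0 hrn
  have hφ : ∀ φ : F →* Multiplicative ℤ_[p], φ r = φ r' := by
    intro φ
    have h1 := congrArg φ he
    rwa [map_mul, map_mul, cm_hom, cm_hom, one_mul, one_mul] at h1
  have hc' : Multiplicative.toAdd (χt r') = Multiplicative.toAdd (χs r') * c := by
    rw [← hφ χt, ← hφ χs]
    exact hc
  have hχc := comb_cont hcs hct c
  have ht : comb χs χt c (ι t) = Multiplicative.ofAdd 1 := by
    apply Multiplicative.toAdd.injective
    rw [comb_apply, ht1, hs0 t hst.symm]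
    simp
  obtain ⟨δ, hδ, hδι⟩ := h.der_exists hp.out
    (coind (zAct (comb χs χt c) hχc) (1 : F →* AddMonoid.End (ZMod p)))
    (coind_discTors p _ _ triv_discTors) (fun x => if x = s then tst p (j + 1) else 0) (by
      apply (Set.finite_singleton s).subset
      intro x hx
      by_contra hxs
      apply hx
      exact if_neg hxs)
  have hδs : ∀ x, x ≠ s → δ (ι x) = 0 := fun x hx => by rw [hδι, if_neg hx]
  have hδr : δ r = 0 := by
    by_contra hne
    exact hr ⟨hr0, c, hc, δ, hδ, hδs, hne⟩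
  have hδr' : δ r' = 0 := by
    by_contra hne
    exact hr' ⟨hr0', c, hc', δ, hδ, hδs, hne⟩
  have h1 := congrArg δ he
  rw [hδ.2, hδ.2, hδr, hδr', map_zero, map_zero, add_zero, add_zero] at h1
  have h2 := congrArg (fun f : LocallyConstant ℤ_[p] (ZMod p) => f ((p : ℤ_[p]) ^ j)) h1
  simp only [der_cm hχc hst ht hδ hδι] at h2
  rw [sub_self] at h2
  have h3 : tst p (j + 1) (0 : ℤ_[p]) = 1 := by
    rw [tst_apply, map_zero, if_pos rfl]
  have h4 : tst p (j + 1) ((p : ℤ_[p]) ^ j - (p : ℤ_[p]) ^ k) = 0 := by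
    rw [tst_apply, if_neg]
    intro h5
    obtain ⟨d, rfl⟩ : ∃ d, k = j + 1 + d := ⟨k - (j + 1), by omega⟩
    have h6 : PadicInt.toZModPow (p := p) (j + 1) ((p : ℤ_[p]) ^ (j + 1 + d)) = 0 := by
      rw [← RingHom.mem_ker, PadicInt.ker_toZModPow, Ideal.mem_span_singleton]
      exact pow_dvd_pow _ (Nat.le_add_right _ _)
    rw [map_sub, h6, sub_zero, ← RingHom.mem_ker, PadicInt.ker_toZModPow,
      Ideal.mem_span_singleton] at h5
    have hpp : Prime (p : ℤ_[p]) := PadicInt.prime_p
    have h7 := (pow_dvd_pow_iff hpp.ne_zero hpp.not_isUnit).1 h5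
    omega
  rw [h3, h4] at h2
  have h8 : (1 : ZMod p) = 0 := by linear_combination -h2
  exact one_ne_zero h8

/-- an open set of full measure -/
theorem full [Nontrivial X] (h : IsFreeProP p ι) :
    ∃ O : Set F, IsOpen O ∧ μ Oᶜ = 0 ∧ ∀ r ∈ O, cd p (F ⧸ clNormal r) ≤ 2 := by
  obtain ⟨s, t, hst⟩ := exists_pair_ne X
  obtain ⟨χs, hcs, hs1, hs0⟩ := exists_coord h s
  obtain ⟨χt, hct, ht1, ht0⟩ := exists_coord h t
  refine ⟨Good ι s χs χt hcs hct ∪ Good ι t χt χs hct hcs,
    (good_open h s hcs hct).union (good_open h t hct hcs), ?_, ?_⟩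
  · have h1 := null_bad μ h hst hcs hct hs0 ht1
    have h2 := null_bad μ h hst.symm hct hcs ht0 hs1
    have h3 := null_coord μ (ι := ι) hcs hs1
    refine measure_mono_null ?_ (measure_union_null h3 (measure_union_null h1 h2))
    intro r hr
    rw [Set.mem_compl_iff, Set.mem_union, not_or] at hr
    by_cases h0 : Multiplicative.toAdd (χs r) = 0
    · exact Or.inl h0
    · right
      rcases le_total ‖Multiplicative.toAdd (χt r)‖ ‖Multiplicative.toAdd (χs r)‖ with hle | hle
      · exact Or.inl ⟨⟨h0, hle⟩, hr.1⟩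
      · refine Or.inr ⟨⟨?_, hle⟩, hr.2⟩
        intro h4
        rw [h4, norm_zero] at hle
        exact h0 (norm_eq_zero.1 (le_antisymm hle (norm_nonneg _)))
  · rintro r (hr | hr)
    · exact good_cd h s hcs hct hr
    · exact good_cd h t hct hcs hr

end Measure

end Main

end Pool.Agent.Y574.DN
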